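import Pool.Agent.H63.WT.TA

/-!
# Products of moduli (Chinese remainder theorem) for the trace forms
-/

set_option autoImplicit false

open Polynomial Matrix Pool.Agent.H63.WT

namespace Pool.Agent.H88.WT

open Pool.Agent.H34.N6 (lam)

/-- the functional `lam P` is linear -/
noncomputable def lamL {F : Type*} [Field F] (P : F[X]) : F[X] →ₗ[F] F :=
  (lcoeff F (P.natDegree - 1)).comp (modByMonicHom P)

lemma lam_eq {F : Type*} [Field F] (P g : F[X]) : lam P g = lamL P g := rfl

lemma lam_add {F : Type*} [Field F] (P g g' : F[X]) : lam P (g + g') = lam P g + lam P g' := by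
  rw [lam_eq, map_add, ← lam_eq, ← lam_eq]

lemma lam_zero_of_dvd {F : Type*} [Field F] {P g : F[X]} (hP : P.Monic) (h : P ∣ g) :
    lam P g = 0 := by
  unfold Pool.Agent.H34.N6.lam
  rw [(modByMonic_eq_zero_iff_dvd hP).2 h, coeff_zero]

/-- the values of the Gram matrix -/
lemma gm_val {F : Type} [Field F] (A h : F[X]) (z w : Fin A.natDegree → F) :
    z ⬝ᵥ (gm A h *ᵥ w) = lam A (h * (∑ i, C (z i) * X ^ (i : ℕ)) *
      ∑ i, C (w i) * X ^ (i : ℕ)) := by
  have e : h * (∑ i, C (z i) * X ^ (i : ℕ)) * ∑ i, C (w i) * X ^ (i : ℕ) =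
      ∑ i, ∑ j, (z i * w j) • (h * X ^ ((i : ℕ) + (j : ℕ))) := by
    rw [mul_assoc, Finset.sum_mul_sum, Finset.mul_sum]
    refine Finset.sum_congr rfl fun i _ => ?_
    rw [Finset.mul_sum]
    refine Finset.sum_congr rfl fun j _ => ?_
    rw [smul_eq_C_mul, C_mul, pow_add]
    ring
  rw [e, lam_eq, map_sum]
  simp only [dotProduct, mulVec]
  refine Finset.sum_congr rfl fun i _ => ?_
  rw [map_sum, Finset.mul_sum]
  refine Finset.sum_congr rfl fun j _ => ?_
  rw [map_smul, ← lam_eq, smul_eq_mul]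
  simp only [gm]
  ring

/-- the coefficient of the top degree for a multiple -/
lemma lam_mul {F : Type*} [Field F] {A B : F[X]} (hA : A.Monic) (hB : B.Monic) (g : F[X]) :
    lam (A * B) (B * g) = lam A g := by
  have hm : (B * g) %ₘ (A * B) = B * (g %ₘ A) := by
    refine (div_modByMonic_unique (g /ₘ A) (B * (g %ₘ A)) (hA.mul hB) ⟨?_, ?_⟩).2
    · have h := modByMonic_add_div g (q := A)
      calc B * (g %ₘ A) + A * B * (g /ₘ A) = B * (g %ₘ A + A * (g /ₘ A)) := by ring
        _ = B * g := by rw [h]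
    · by_cases hz : g %ₘ A = 0
      · rw [hz, mul_zero, degree_zero, bot_lt_iff_ne_bot]
        intro hb
        exact (hA.mul hB).ne_zero (degree_eq_bot.1 hb)
      · rw [degree_mul, degree_mul, add_comm]
        have h1 := degree_modByMonic_lt g hA
        have hB0 : B ≠ 0 := hB.ne_zero
        rw [degree_eq_natDegree hz, degree_eq_natDegree hB0, degree_eq_natDegree hA.ne_zero]
        rw [degree_eq_natDegree hz, degree_eq_natDegree hA.ne_zero] at h1
        have h2 : (g %ₘ A).natDegree < A.natDegree := by exact_mod_cast h1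
        exact_mod_cast (by omega : (g %ₘ A).natDegree + B.natDegree < A.natDegree + B.natDegree)
  unfold Pool.Agent.H34.N6.lam
  rw [hm, hA.natDegree_mul hB]
  by_cases ha : A.natDegree = 0
  · have hA1 : A = 1 := hA.natDegree_eq_zero.1 ha
    rw [hA1, modByMonic_one]
    simp
  · have h1 : A.natDegree + B.natDegree - 1 = B.natDegree + (A.natDegree - 1) := by omega
    rw [h1, coeff_mul_add_eq_of_natDegree_le le_rfl (by
      have h2 := natDegree_modByMonic_lt g hA (by
        intro h3
        exact ha (by rw [h3, natDegree_one]))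
      omega), hB.coeff_natDegree, one_mul]

/-- an injective matrix with as many rows as columns is invertible -/
lemma exists_inv_of_inj {F ι κ : Type} [Field F] [Fintype ι] [DecidableEq ι] [Fintype κ]
    [DecidableEq κ] (U : Matrix ι κ F) (hc : Fintype.card ι = Fintype.card κ)
    (h : ∀ z : κ → F, U *ᵥ z = 0 → z = 0) : ∃ V : Matrix κ ι F, U * V = 1 ∧ V * U = 1 := by
  have hk : LinearMap.ker (Matrix.toLin' U) = ⊥ := by
    rw [LinearMap.ker_eq_bot']
    intro z hz
    exact h z (by rw [← Matrix.toLin'_apply]; exact hz)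
  obtain ⟨g, hg⟩ := LinearMap.exists_leftInverse_of_injective _ hk
  have h1 : LinearMap.toMatrix' g * U = 1 := by
    have h2 := congrArg LinearMap.toMatrix' hg
    rw [LinearMap.toMatrix'_comp, LinearMap.toMatrix'_toLin', LinearMap.toMatrix'_id] at h2
    exact h2
  exact ⟨LinearMap.toMatrix' g, (Matrix.mul_eq_one_comm_of_card_eq _ _ _ hc.symm).1 h1, h1⟩

/-- a polynomial of small degree is the sum of its terms -/
lemma sum_coeff {F : Type} [Field F] {n : ℕ} {g : F[X]} (hg : g.natDegree < n) :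
    ∑ i : Fin n, C (g.coeff i) * X ^ (i : ℕ) = g := by
  rw [Fin.sum_univ_eq_sum_range (fun i => C (g.coeff i) * X ^ i) n]
  exact (as_sum_range_C_mul_X_pow' g hg).symm

/-- the coefficients of a sum of terms -/
lemma coeff_sum_fin {F : Type} [Field F] {n : ℕ} (z : Fin n → F) (j : Fin n) :
    (∑ i : Fin n, C (z i) * X ^ (i : ℕ)).coeff (j : ℕ) = z j := by
  rw [finsetSum_coeff, Finset.sum_eq_single j]
  · rw [coeff_C_mul, coeff_X_pow, if_pos rfl, mul_one]
  · intro i _ hi
    rw [coeff_C_mul, coeff_X_pow, if_neg (fun h => hi (Fin.ext h.symm)), mul_zero]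
  · intro h
    exact absurd (Finset.mem_univ j) h

/-- pull back of the Gram matrix under polynomials of small degree -/
lemma pull {F κ : Type} [Field F] [Fintype κ] (P h : F[X]) (col : κ → F[X])
    (hc : ∀ x, (col x).natDegree < P.natDegree) (U : Matrix (Fin P.natDegree) κ F)
    (hU : ∀ i x, U i x = (col x).coeff i) (x y : κ) :
    (Uᵀ * gm P h * U) x y = lam P (h * col x * col y) := by
  have h1 : (Uᵀ * gm P h * U) x y = (fun i : Fin P.natDegree => (col x).coeff (i : ℕ)) ⬝ᵥ
      (gm P h *ᵥ (fun i : Fin P.natDegree => (col y).coeff (i : ℕ))) := by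
    rw [Matrix.mul_assoc]
    have e1 : (fun i : Fin P.natDegree => (col x).coeff (i : ℕ)) = fun i => U i x := by
      funext i; exact (hU i x).symm
    have e2 : (fun i : Fin P.natDegree => (col y).coeff (i : ℕ)) = fun i => U i y := by
      funext i; exact (hU i y).symm
    rw [e1, e2]
    rfl
  rw [h1, gm_val, sum_coeff (hc x), sum_coeff (hc y)]

theorem pf_SCR (hCLS : T_CLS) (hGDT : T_GDT) : T_SCR := by
  intro F _ h2 A B h hA hB hAB hh
  have hn : (A * B).natDegree = A.natDegree + B.natDegree := hA.natDegree_mul hB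
  let col : Fin A.natDegree ⊕ Fin B.natDegree → F[X] :=
    Sum.elim (fun j => X ^ (j : ℕ) * B) (fun j => X ^ (j : ℕ) * A)
  have hcol : ∀ x, (col x).natDegree < (A * B).natDegree := by
    rintro (j | j)
    · change (X ^ (j : ℕ) * B).natDegree < _
      rw [(monic_X_pow _).natDegree_mul hB, natDegree_X_pow, hn]
      have := j.2
      omega
    · change (X ^ (j : ℕ) * A).natDegree < _
      rw [(monic_X_pow _).natDegree_mul hA, natDegree_X_pow, hn]
      have := j.2
      omega
  let U : Matrix (Fin (A * B).natDegree) (Fin A.natDegree ⊕ Fin B.natDegree) F :=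
    fun i x => (col x).coeff i
  have hinj : ∀ z, U *ᵥ z = 0 → z = 0 := by
    intro z hz
    set u : F[X] := ∑ j : Fin A.natDegree, C (z (Sum.inl j)) * X ^ (j : ℕ) with hu
    set v : F[X] := ∑ j : Fin B.natDegree, C (z (Sum.inr j)) * X ^ (j : ℕ) with hv
    have hw : u * B + v * A = ∑ x, C (z x) * col x := by
      rw [Fintype.sum_sum_type, hu, hv, Finset.sum_mul, Finset.sum_mul]
      congr 1
      · exact Finset.sum_congr rfl fun j _ => mul_assoc _ _ _
      · exact Finset.sum_congr rfl fun j _ => mul_assoc _ _ _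
    have hw0 : u * B + v * A = 0 := by
      rw [hw]
      ext i
      rw [finsetSum_coeff, coeff_zero]
      by_cases hi : i < (A * B).natDegree
      · have h3 := congrFun hz ⟨i, hi⟩
        rw [Pi.zero_apply] at h3
        rw [← h3]
        simp only [mulVec, dotProduct]
        refine Finset.sum_congr rfl fun x _ => ?_
        rw [coeff_C_mul, mul_comm]
      · refine Finset.sum_eq_zero fun x _ => ?_
        rw [coeff_C_mul, coeff_eq_zero_of_natDegree_lt (lt_of_lt_of_le (hcol x) (not_lt.1 hi)),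
          mul_zero]
    have hv0 : v = 0 := by
      have h3 : B ∣ v * A := ⟨-u, by linear_combination hw0⟩
      have h4 : B ∣ v := hAB.symm.dvd_of_dvd_mul_right h3
      refine eq_zero_of_dvd_of_degree_lt h4 ?_
      rw [degree_eq_natDegree hB.ne_zero]
      exact degree_sum_fin_lt _
    have hu0 : u = 0 := by
      have h3 : A ∣ u * B := ⟨-v, by linear_combination hw0⟩
      have h4 : A ∣ u := hAB.dvd_of_dvd_mul_right h3
      refine eq_zero_of_dvd_of_degree_lt h4 ?_
      rw [degree_eq_natDegree hA.ne_zero]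
      exact degree_sum_fin_lt _
    funext x
    rcases x with j | j
    · rw [← coeff_sum_fin (fun j => z (Sum.inl j)) j, ← hu, hu0, coeff_zero]
      rfl
    · rw [← coeff_sum_fin (fun j => z (Sum.inr j)) j, ← hv, hv0, coeff_zero]
      rfl
  obtain ⟨V, hUV, hVU⟩ := exists_inv_of_inj U (by
    rw [Fintype.card_fin, Fintype.card_sum, Fintype.card_fin, Fintype.card_fin, hn]) hinj
  have hmat : Uᵀ * gm (A * B) h * U = fromBlocks (gm A (h * B)) 0 0 (gm B (h * A)) := by
    ext x y
    rw [pull (A * B) h col hcol U (fun _ _ => rfl) x y]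
    rcases x with i | i <;> rcases y with j | j
    · change lam (A * B) (h * (X ^ (i : ℕ) * B) * (X ^ (j : ℕ) * B)) =
        lam A (h * B * X ^ ((i : ℕ) + (j : ℕ)))
      rw [← lam_mul hA hB]
      congr 1
      rw [pow_add]
      ring
    · change lam (A * B) (h * (X ^ (i : ℕ) * B) * (X ^ (j : ℕ) * A)) = 0
      exact lam_zero_of_dvd (hA.mul hB) ⟨h * X ^ (i : ℕ) * X ^ (j : ℕ), by ring⟩
    · change lam (A * B) (h * (X ^ (i : ℕ) * A) * (X ^ (j : ℕ) * B)) = 0
      exact lam_zero_of_dvd (hA.mul hB) ⟨h * X ^ (i : ℕ) * X ^ (j : ℕ), by ring⟩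
    · change lam (A * B) (h * (X ^ (i : ℕ) * A) * (X ^ (j : ℕ) * A)) =
        lam B (h * A * X ^ ((i : ℕ) + (j : ℕ)))
      rw [← lam_mul hB hA, mul_comm B A]
      congr 1
      rw [pow_add]
      ring
  have hSN : ∀ P g : F[X], P.Monic → IsCoprime P g → SN (gm P g) := fun P g hP hg =>
    ⟨(hGDT F P hP).2.1 g, ((hGDT F P hP).2.2.1 g).2 hg⟩
  have hA' : IsCoprime A (h * B) := (IsCoprime.of_mul_left_left hh).mul_right hAB
  have hB' : IsCoprime B (h * A) := (IsCoprime.of_mul_left_right hh).mul_right hAB.symm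
  obtain ⟨-, h4, h5, -, -⟩ := hCLS F h2
  have h6 := (h5 _ _ (gm (A * B) h) U V (hSN _ _ (hA.mul hB) hh) hUV hVU).2
  rw [hmat, h4 _ _ _ _ (hSN _ _ hA hA') (hSN _ _ hB hB')] at h6
  exact h6.symm

end Pool.Agent.H88.WT
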