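import Pool.Agent.H49.WT.SYF
import Pool.Agent.H97.QCL.BIM

/-!
# Bimultiplicativity of the symbols
-/

set_option autoImplicit false

open Polynomial Matrix Pool.Agent.H63.WT

namespace Pool.Agent.H88.WT

open Pool.Agent.H49.WT (mk_ne tr_on ex_tr top bas two_ne)
open Pool.Agent.H32.QC (hil Sol)

/-- the Pfister forms are bimultiplicative -/
theorem pf_mul (hIV : T_IV) (hPFI : T_PFI) {E : Type} [Field E] (h2 : (2 : E) ≠ 0)
    (hN : Pool.Agent.H32.QC.NI E) (hn : 2 < Pool.Agent.H32.QC.nsq E) {a b c : E}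
    (ha : a ≠ 0) (hb : b ≠ 0) (hc : c ≠ 0) : pf a (b * c) = pf a b + pf a c := by
  obtain ⟨h3, h4, -, -⟩ := hIV E h2 hN hn
  have hI := hPFI E h2
  have hbim := Pool.Agent.H97.QCL.pf_BIM E h2 hN a b c ha hb hc
  have hb' := hI a b ha hb
  have hc' := hI a c ha hc
  have hbc := hI a (b * c) ha (mul_ne_zero hb hc)
  unfold hil at hbim
  by_cases s1 : Sol a b
  · by_cases s2 : Sol a c
    · have s3 : Sol a (b * c) := by
        by_contra s3
        rw [if_pos s1, if_pos s2, if_neg s3] at hbim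
        norm_num at hbim
      rw [hb'.2.2 s1, hc'.2.2 s2, hbc.2.2 s3, add_zero]
    · have s3 : ¬ Sol a (b * c) := by
        intro s3
        rw [if_pos s1, if_neg s2, if_pos s3] at hbim
        norm_num at hbim
      rw [hb'.2.2 s1, zero_add]
      exact h4 _ _ hbc.1 hc'.1 (fun h => s3 (hbc.2.1 h)) (fun h => s2 (hc'.2.1 h))
  · by_cases s2 : Sol a c
    · have s3 : ¬ Sol a (b * c) := by
        intro s3
        rw [if_neg s1, if_pos s2, if_pos s3] at hbim
        norm_num at hbim
      rw [hc'.2.2 s2, add_zero]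
      exact h4 _ _ hbc.1 hb'.1 (fun h => s3 (hbc.2.1 h)) (fun h => s1 (hb'.2.1 h))
    · have s3 : Sol a (b * c) := by
        by_contra s3
        rw [if_neg s1, if_neg s2, if_neg s3] at hbim
        norm_num at hbim
      have h5 : pf a b = pf a c := h4 _ _ hb'.1 hc'.1 (fun h => s1 (hb'.2.1 h))
        (fun h => s2 (hc'.2.1 h))
      rw [hbc.2.2 s3, h5, h3 _ hc'.1]

/-- the symbol modulo an irreducible polynomial is the transfer of a Pfister form -/
theorem sy_irr (hTRH : T_TRH) (hCLS : T_CLS) {F : Type} [Field F] (h2 : (2 : F) ≠ 0)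
    (p : F[X]) (hp : p.Monic) [Fact (Irreducible p)] :
    ∃ f : WG (AdjoinRoot p) →+ WG F, ∀ a b : F[X], IsCoprime p a → IsCoprime p b →
      sy p a b = f (pf (AdjoinRoot.mk p a) (AdjoinRoot.mk p b)) := by
  obtain ⟨f, hf⟩ := ex_tr p hp hTRH h2
  refine ⟨f, fun a b ha hb => ?_⟩
  unfold pf sy
  rw [← map_one (AdjoinRoot.mk p), map_add, map_sub, map_sub, ← map_mul,
    tr_on p hp hCLS h2 f hf _ (mk_ne p isCoprime_one_right),
    tr_on p hp hCLS h2 f hf _ (mk_ne p ha),
    tr_on p hp hCLS h2 f hf _ (mk_ne p hb),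
    tr_on p hp hCLS h2 f hf _ (mk_ne p (ha.mul_right hb))]

theorem sy_one_mod {F : Type} [Field F] (a b : F[X]) : sy 1 a b = 0 := by
  have hS : ∀ h h' : F[X], S 1 h = S 1 h' := by
    intro h h'
    unfold S
    have : gm (1 : F[X]) h = gm 1 h' := by
      ext i j
      exact (Fin.cast natDegree_one i).elim0
    rw [this]
  unfold sy
  rw [hS a 1, hS b 1, hS (a * b) 1]
  abel

theorem pf_SYB (hSYF : T_SYF) (_hSYH : T_SYH) (_hTR : T_TR) (hTRH : T_TRH) (hIV : T_IV)
    (_hLAE : T_LAE) (hPFI : T_PFI) (_hONE : T_ONE) (hCLS : T_CLS) (_hI2A : T_I2A) : T_SYB := by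
  intro F _ _ hF A a b c
  have h2 : (2 : F) ≠ 0 := hF.1
  induction hn : A.natDegree using Nat.strong_induction_on generalizing A with
  | _ n ih =>
    intro hA hsep ha hb hc
    by_cases h0 : A.natDegree = 0
    · have h1 : A = 1 := eq_one_of_monic_natDegree_zero hA h0
      subst h1
      rw [sy_one_mod, sy_one_mod, sy_one_mod, add_zero]
    · obtain ⟨p, hpm, hpi, q, rfl⟩ := exists_monic_irreducible_factor A
        (not_isUnit_of_natDegree_pos A (Nat.pos_of_ne_zero h0))
      have hq : q.Monic := hpm.of_mul_monic_left hA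
      have hdeg : (p * q).natDegree = p.natDegree + q.natDegree := hpm.natDegree_mul hq
      have hlt : q.natDegree < n := by
        have := hpi.natDegree_pos
        omega
      haveI : Fact (Irreducible p) := ⟨hpi⟩
      haveI : FiniteDimensional F (AdjoinRoot p) := hpm.finite_adjoinRoot
      obtain ⟨hN, hn2⟩ := hF.2 (AdjoinRoot p) inferInstance
      obtain ⟨f, hf⟩ := sy_irr hTRH hCLS h2 p hpm
      have h3 : sy p a (b * c) = sy p a b + sy p a c := by
        rw [hf _ _ ha.of_mul_left_left (hb.of_mul_left_left.mul_right hc.of_mul_left_left),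
          hf _ _ ha.of_mul_left_left hb.of_mul_left_left,
          hf _ _ ha.of_mul_left_left hc.of_mul_left_left, map_mul,
          pf_mul hIV hPFI (two_ne (E := AdjoinRoot p) h2) hN hn2 (mk_ne p ha.of_mul_left_left)
            (mk_ne p hb.of_mul_left_left) (mk_ne p hc.of_mul_left_left), map_add]
      rw [hSYF F hF p q a (b * c) hpm hq hsep ha (hb.mul_right hc),
        hSYF F hF p q a b hpm hq hsep ha hb, hSYF F hF p q a c hpm hq hsep ha hc, h3,
        ih q.natDegree hlt q rfl hq hsep.of_mul_right ha.of_mul_left_right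
          hb.of_mul_left_right hc.of_mul_left_right]
      abel

end Pool.Agent.H88.WT
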